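import Pool.Agent.N783.PF.Loc

/-!
# Project SP (helper94): every 2-Selmer rank occurs for a positive proportion of all elliptic curves
# over every number field. Statements, part A: counting with prescribed localizations

The project PF (helper783) is modified in two ways. (1) The classes may be ramified at the primes
dividing a fixed number `m`: the lattices are not unimodular any more, but `m` times the dual lattice
is contained in the lattice (`LatM m`). (2) At the primes `q` in a subset `U` of `S` it is prescribed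
for every `q` whether the pair is distinguished (`q ∈ Z`) or not (`q ∉ Z`) (`XP`, `LP`).
-/

set_option autoImplicit false
set_option linter.all false

open Polynomial IsDedekindDomain Matrix NumberField
open scoped Classical

namespace Pool.Agent.L0h94.SP

open Pool.Agent.N352.PJ (Mt Typ dd)
open Pool.Agent.N783.PQ (chp form Dist Gap Mid Deep eA eB eU uu)
open Pool.Agent.N874.PP (Ev Sq1 U0)
open Pool.Agent.N783.PF

/-! ### Pairs of symmetric matrices -/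

section fld

variable {F : Type} [Field F] [NumberField F]

/-- The pairs over which we count (compare `Xset`). -/
structure XP (g N c : ℕ) (w : Fin (2 * g + 1) → ℤ) (S U Z : Finset ℕ) (𝔮 : ℕ → Ideal (𝓞 F))
    (P : ℕ → (𝓞 F)[X]) (A B : Mt g (𝓞 F)) : Prop where
  box : Box g N c w A B
  con : ∀ q ∈ S, ∀ 𝔭 : Ideal (𝓞 F), 𝔭.IsPrime → (q : 𝓞 F) ∈ 𝔭 → chp (rm 𝔭 A) (rm 𝔭 B) = rd 𝔭 (P q)
  dist : ∀ q ∈ U, (Dist (rm (𝔮 q) A) (rm (𝔮 q) B) ↔ q ∈ Z)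

/-- The polynomial `f` is bad: it is irreducible and comes from a pair (compare `LBad`). -/
def LP (g N c : ℕ) (S U Z : Finset ℕ) (𝔮 : ℕ → Ideal (𝓞 F)) (P : ℕ → (𝓞 F)[X])
    (f : (𝓞 F)[X]) : Prop :=
  Irreducible (fF f) ∧ ∃ w, Typ g w ∧ Gap g N w ∧ (Mid g N w ∨ Deep g N c w) ∧
    ∃ A B : Mt g (𝓞 F), XP g N c w S U Z 𝔮 P A B ∧ chp (mF A) (mF B) = fF f

end fld

/-- (CQN) Over a finite field: symmetric matrices `B` which are not distinguished with respect to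
`A`, with given characteristic polynomial `x h(x)`. Compare `cqa` in `N42/PF/CQ.lean`: for a pair
which is not distinguished the form has a vector with values `top (α θ ^ m)` for one fixed class `α`
(norm a square, not a square itself); count the matrices of Krylov vectors. -/
def S_CQN : Prop := ∀ (g : ℕ) (κ : Type) [Field κ] [Finite κ], 1 ≤ g → (2 : κ) ≠ 0 →
  ∀ h : κ[X], h.Monic → Irreducible h → h.natDegree = 2 * g → ∀ A : Mt g κ, A.IsSymm →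
  (∃ x : κ, x ≠ 0 ∧ A.det = (-1) ^ g * x ^ 2) →
  2 * Nat.card {B : Mt g κ // B.IsSymm ∧ chp A B = X * h ∧ ¬ Dist A B} ≤
    Nat.card κ ^ (g * (2 * g + 1))

/-- (PBP) The number of pairs in a large box (adapt `N456/PF/Pb.lean`; `S_CQA`, `S_CQN` and, at the
primes in `S` outside `U`, their sum). -/
def S_PBP : Prop := ∀ (F : Type) [Field F] [NumberField F] (g c : ℕ), 1 ≤ g → ∃ C K : ℕ,
  ∀ (W : ℕ) (S : Finset ℕ) (𝔮 : ℕ → Ideal (𝓞 F)) (h P : ℕ → (𝓞 F)[X]), K ≤ W →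
  GoodS g W S 𝔮 h P → ∀ U Z : Finset ℕ, U ⊆ S → ∀ (N : ℕ) (w : Fin (2 * g + 1) → ℤ), Typ g w →
  ((∏ q ∈ S, q : ℕ) : ℝ) ≤ (2 : ℝ) ^ (2 * (N : ℤ) + 2 * w 0) →
  2 ^ U.card * (∏ q ∈ S, q ^ (2 * g)) ^ Module.finrank ℚ F *
      {p : Mt g (𝓞 F) × Mt g (𝓞 F) | XP g N c w S U Z 𝔮 P p.1 p.2}.ncard ≤
    C * 2 ^ (Module.finrank ℚ F * (eA g w + 2 * N * dd g))

/-- (PB0P) The trivial bound for the number of pairs (adapt `pb0` in `N456/PF/Pb.lean`). -/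
def S_PB0P : Prop := ∀ (F : Type) [Field F] [NumberField F] (g c : ℕ), 1 ≤ g → ∃ C : ℕ,
  ∀ (S U Z : Finset ℕ) (𝔮 : ℕ → Ideal (𝓞 F)) (P : ℕ → (𝓞 F)[X]) (N : ℕ)
  (w : Fin (2 * g + 1) → ℤ), Typ g w →
  {p : Mt g (𝓞 F) × Mt g (𝓞 F) | XP g N c w S U Z 𝔮 P p.1 p.2}.Finite ∧
  2 ^ (Module.finrank ℚ F * (2 * N)) *
      {p : Mt g (𝓞 F) × Mt g (𝓞 F) | XP g N c w S U Z 𝔮 P p.1 p.2}.ncard ≤
    C * 2 ^ (Module.finrank ℚ F * (eA g w + eB g N w))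

/-- (ORBP) Every irreducible `f` comes from many pairs (adapt `N999/PF/Orb.lean`; `Dist` is
invariant under a change of the basis, in both directions). -/
def S_ORBP : Prop := ∀ (F : Type) [Field F] [NumberField F] (g : ℕ), ∃ κ C : ℕ, ∀ (c : ℕ)
  (S U Z : Finset ℕ) (𝔮 : ℕ → Ideal (𝓞 F)) (P : ℕ → (𝓞 F)[X]) (N : ℕ)
  (w : Fin (2 * g + 1) → ℤ), Typ g w →
  {p : Mt g (𝓞 F) × Mt g (𝓞 F) | XP g (N + κ) (c + κ) w S U Z 𝔮 P p.1 p.2}.Finite →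
  {f : (𝓞 F)[X] | Irreducible (fF f) ∧ ∃ A B : Mt g (𝓞 F), XP g N c w S U Z 𝔮 P A B ∧
      chp (mF A) (mF B) = fF f}.ncard * 2 ^ (Module.finrank ℚ F * eU g w) ≤
  C * {p : Mt g (𝓞 F) × Mt g (𝓞 F) | XP g (N + κ) (c + κ) w S U Z 𝔮 P p.1 p.2}.ncard

/-- (BADP) Few bad `f` (adapt `N134/PF/Bad.lean`: `S_PBP → S_PB0P → S_ORBP → S_BADP`). -/
def S_BADP : Prop := ∀ (F : Type) [Field F] [NumberField F] (g c : ℕ), 1 ≤ g → ∃ C K : ℕ,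
  ∀ (W : ℕ) (S : Finset ℕ) (𝔮 : ℕ → Ideal (𝓞 F)) (h P : ℕ → (𝓞 F)[X]), K ≤ W →
  GoodS g W S 𝔮 h P → ∀ U Z : Finset ℕ, U ⊆ S → ∃ N₀ : ℕ, ∀ N ≥ N₀,
  {f : (𝓞 F)[X] | LP g N c S U Z 𝔮 P f}.Finite ∧
  2 ^ U.card * (∏ q ∈ S, q ^ (2 * g)) ^ Module.finrank ℚ F *
      {f : (𝓞 F)[X] | LP g N c S U Z 𝔮 P f}.ncard ≤
    C * 2 ^ (Module.finrank ℚ F * (2 * N * dd g))

/-! ### Lattices -/

section lat

variable {F L : Type} [Field F] [NumberField F] [Field L] [NumberField L] [Algebra F L]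
variable {g : ℕ} {f : (𝓞 F)[X]} {θ : L}

/-- `Λ` is a lattice stable under `θ` on which the form `x y / α` (coefficient of `θ ^ (2 g)`) is
integral; `m` times the dual lattice is contained in `Λ` (compare `Lat`, where `m = 1`). -/
structure LatM (m : ℕ) (h : IsGen g f θ) (α : L) (Λ : Submodule (𝓞 F) L) : Prop where
  fg : Λ.FG
  span : ∀ x : L, ∃ k : 𝓞 F, k ≠ 0 ∧ k • x ∈ Λ
  stab : ∀ x ∈ Λ, θ * x ∈ Λ
  int : ∀ x ∈ Λ, ∀ y ∈ Λ, IsIntegral ℤ (h.top (x * y / α))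
  dual : ∀ y : L, (∀ x ∈ Λ, IsIntegral ℤ (h.top (x * y / α))) → (m : L) * y ∈ Λ

end lat

/-- (DISM) A basis over the integers of a lattice and its discriminant (adapt `N547/PF/Dis.lean`). -/
def S_DISM : Prop := ∀ (g m : ℕ), 0 < m → ∀ (F : Type) [Field F] [NumberField F], ∃ C : ℕ,
  ∀ (L : Type) [Field L] [NumberField L] [Algebra F L] (f : (𝓞 F)[X]) (θ : L) (hG : IsGen g f θ)
  (α : L) (Λ : Submodule (𝓞 F) L), α ≠ 0 → LatM m hG α Λ →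
  ∃ b : Fin ((2 * g + 1) * Module.finrank ℚ F) → L, LinearIndependent ℚ b ∧
    (∀ x : L, x ∈ Λ ↔ ∃ c : Fin ((2 * g + 1) * Module.finrank ℚ F) → ℤ, x = ∑ i, (c i : L) * b i) ∧
    |(Matrix.of fun i j => Algebra.trace ℚ L
      (b i * b j / (α * aeval θ (derivative (fF f))))).det| ≤ C

/-- (REDM) Linearly independent small vectors in a lattice (adapt `N255/PF/Red.lean`:
`S_DISM → S_REDM`). -/
def S_REDM : Prop := ∀ (g m : ℕ), 0 < m → ∀ (F : Type) [Field F] [NumberField F], ∃ C : ℕ,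
  ∀ (L : Type) [Field L] [NumberField L] [Algebra F L] (f : (𝓞 F)[X]) (θ : L) (hG : IsGen g f θ)
  (α : L) (Λ : Submodule (𝓞 F) L), α ≠ 0 → LatM m hG α Λ →
  ∃ e : Fin (2 * g + 1) → L, (∀ i, e i ∈ Λ) ∧ LinearIndependent F e ∧
    Monotone (fun i => HH f θ α (e i)) ∧ ∏ i, HH f θ α (e i) ≤ C

/-- (TYPM) The type of a lattice (adapt `N169/PF/Typ.lean`: `S_REDM → S_MAJ → S_TYPM`). -/
def S_TYPM : Prop := ∀ (g m : ℕ), 0 < m → ∀ (F : Type) [Field F] [NumberField F], ∃ C : ℕ, 1 ≤ g →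
  ∀ (B : ℕ) (L : Type) [Field L] [NumberField L] [Algebra F L] (f : (𝓞 F)[X]) (θ : L)
  (hG : IsGen g f θ) (α : L) (Λ : Submodule (𝓞 F) L), Ht g B f → α ≠ 0 → LatM m hG α Λ →
  ∃ (e : Fin (2 * g + 1) → L) (w : Fin (2 * g + 1) → ℤ), (∀ i, e i ∈ Λ) ∧
    LinearIndependent F e ∧ Typ g w ∧ ∀ i, HH f θ α (e i) ≤ (4 : ℝ) ^ ((C : ℤ) + w i)

/-- (CHIM) Formal properties of the Gram matrices (adapt `N614/PF/Chi.lean`; new: `Dist` implies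
`DVec`; at the primes not dividing `det A` the vectors `e` are a basis of `Λ`). -/
def S_CHIM : Prop := ∀ (g m : ℕ) (F L : Type) [Field F] [NumberField F] [Field L] [NumberField L]
  [Algebra F L] (f : (𝓞 F)[X]) (θ : L) (hG : IsGen g f θ) (α : L) (Λ : Submodule (𝓞 F) L)
  (e : Fin (2 * g + 1) → L), 0 < m → f.coeff (2 * g) = 0 → α ≠ 0 → LatM m hG α Λ →
  (∀ i, e i ∈ Λ) →
  LinearIndependent F e → ∃ A B : Mt g (𝓞 F), Gr hG α e A B ∧ A.IsSymm ∧ B.IsSymm ∧ A.det ≠ 0 ∧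
    chp (mF A) (mF B) = fF f ∧ (A.adjugate * B).trace = 0 ∧
    (IsSquare (Algebra.norm F α) → ∃ x : 𝓞 F, x ≠ 0 ∧ A.det = (-1) ^ g * x ^ 2) ∧
    ∀ 𝔮 : Ideal (𝓞 F), 𝔮.IsPrime → 𝔮 ≠ ⊥ → A.det ∉ 𝔮 → chp (rm 𝔮 A) (rm 𝔮 B) = rd 𝔮 f ∧
      (DVec hG α Λ 𝔮 ↔ Dist (rm 𝔮 A) (rm 𝔮 B))

/-- (LBM) From the lattice to a bad polynomial (adapt `N438/PF/LB.lean`:
`S_TYPM → S_MAJ → S_CHIM → S_SQ → S_LBM`; only the case that `α` is not a square). -/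
def S_LBM : Prop := ∀ (g m : ℕ) (F : Type) [Field F] [NumberField F], 1 ≤ g → 0 < m → ∃ κ : ℕ,
  ∀ (L : Type) [Field L] [NumberField L] [Algebra F L] (f : (𝓞 F)[X]) (θ : L) (B N W : ℕ)
  (S U Z : Finset ℕ) (𝔮 : ℕ → Ideal (𝓞 F)) (h P : ℕ → (𝓞 F)[X]), κ ≤ W → GoodS g W S 𝔮 h P →
  ∀ hG : IsGen g f θ, Ht g B f → 2 ^ κ * B ≤ 4 ^ N → (∀ q ∈ S, Cg (sp F q) f (P q)) → U ⊆ S →
  ∀ (α : L) (Λ : Submodule (𝓞 F) L), α ≠ 0 → IsSquare (Algebra.norm F α) → LatM m hG α Λ →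
  (∀ q ∈ U, (DVec hG α Λ (𝔮 q) ↔ q ∈ Z)) → ¬ IsSquare α → LP g N κ S U Z 𝔮 P f

/-- (SDM) The lattice of the `x` with `x ^ 2 / α` integral (adapt `N862/PF/SD.lean`). -/
def S_SDM : Prop := ∀ (g m : ℕ) (F L : Type) [Field F] [NumberField F] [Field L] [NumberField L]
  [Algebra F L] (f : (𝓞 F)[X]) (θ : L), ∀ hG : IsGen g f θ, SqF g f → 0 < m → ∀ α : L, α ≠ 0 →
  (∀ 𝔓 : HeightOneSpectrum (𝓞 L), ¬ Ev 𝔓 α → (m : 𝓞 L) ∈ 𝔓.asIdeal) →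
  ∃ Λ : Submodule (𝓞 F) L, SDn α Λ ∧ LatM m hG α Λ

/-- (TVI) Distinguished vectors modulo `𝔮` and local squares (adapt `N862/PF/TV.lean`; new: a
distinguished vector `x` shows that `α (s / x) ^ 2` is `1` modulo `𝔮`). -/
def S_TVI : Prop := ∀ (g m : ℕ) (F L : Type) [Field F] [NumberField F] [Field L] [NumberField L]
  [Algebra F L] (f : (𝓞 F)[X]) (θ : L), ∀ hG : IsGen g f θ, SqF g f → 0 < m → ∀ (α : L)
  (Λ : Submodule (𝓞 F) L), α ≠ 0 → SDn α Λ → LatM m hG α Λ →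
  ∀ 𝔮 : Ideal (𝓞 F), 𝔮.IsPrime → 𝔮 ≠ ⊥ → (m : 𝓞 F) ∉ 𝔮 → (rd 𝔮 f).Separable →
  (∀ 𝔓 : HeightOneSpectrum (𝓞 L), Ov 𝔮 𝔓 → Ev 𝔓 α) →
  ((∀ 𝔓 : HeightOneSpectrum (𝓞 L), Ov 𝔮 𝔓 → Sq1 𝔓 α) ↔ DVec hG α Λ 𝔮)

end Pool.Agent.L0h94.SP
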