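import Pool.Agent.L0h94.SP.StmE
import Pool.Agent.N521.QM.Selc

/-!
# Project SP (helper94). Statements, part F: the 2-Selmer group in terms of Galois cohomology, and the
height with normalized absolute values
-/

set_option autoImplicit false
set_option linter.all false

open Polynomial IsDedekindDomain NumberField
open scoped Classical

namespace Pool.Agent.L0h94.SP

open Pool.Agent.N783.PF
open Pool.Agent.N874.PP (sW IsBeta Rt sg rr)
open Pool.Agent.N874.QM (IsLoc)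
open Pool.Agent.TH115.GD (Pt act rs IsCoc LocTriv Comp Sep)

/-! ### Galois cohomology -/

/-- The cochain `f` is the coboundary of a point of order two (or one). -/
def Cob {M : Type} [Field M] (W : WeierstrassCurve M) (f : (Sep M ≃ₐ[M] Sep M) → Pt W (Sep M)) :
    Prop := ∃ T : Pt W (Sep M), (2 : ℕ) • T = 0 ∧ ∀ σ, f σ = act W (rs M σ) T - T

/-- Continuous cocycles with values in the points of order two. -/
def Coc2 {M : Type} [Field M] (W : WeierstrassCurve M) (f : (Sep M ≃ₐ[M] Sep M) → Pt W (Sep M)) :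
    Prop := IsCoc W f ∧ ∀ σ, (2 : ℕ) • f σ = 0

/-- The 2-Selmer group `ker (H¹(M, W[2]) → ∏ H¹(M_v, W))` has exactly `N` elements. -/
def SelCN {M : Type} [Field M] [NumberField M] (W : WeierstrassCurve M) (N : ℕ) : Prop :=
  ∃ R : Finset ((Sep M ≃ₐ[M] Sep M) → Pt W (Sep M)), R.card = N ∧
    (∀ f ∈ R, Coc2 W f ∧ IsLoc W f) ∧ (∀ f ∈ R, ∀ g ∈ R, f ≠ g → ¬ Cob W (fun σ => f σ - g σ)) ∧
    ∀ f, Coc2 W f → IsLoc W f → ∃ g ∈ R, Cob W (fun σ => f σ - g σ)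

/-- (COA) From classes to cocycles. Proof: let `t₁, t₂, t₃` be the roots in `Sep K`, choose square roots
`β tᵢ` of `h(tᵢ)` with `β t₁ * β t₂ * β t₃` in `K` (the norm is a square); by the last part of
`S_GP3` there is `f σ` in `W[2]` with `σ (β t) = sg (f σ) (σ t) * β (σ t)`; it is unique, so `f` is a
cocycle; it is locally constant (compare `act_locConst` in `TH115/GD/Kum.lean`). `S_GP3`, `S_GP4` are
proved in `N630/PP/GP.lean`; helpful: `norm_poly`, `prod_perm` in `N187/PP/GN.lean`. -/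
def S_COA : Prop := ∀ (K : Type) [Field K] (A B : K), (6 : K) ≠ 0 → 4 * A ^ 3 + 27 * B ^ 2 ≠ 0 →
  Irreducible (X ^ 3 + C A * X + C B : K[X]) → ∀ h : K[X],
  IsCoprime h (X ^ 3 + C A * X + C B) →
  IsSquare (Algebra.norm K (AdjoinRoot.mk (X ^ 3 + C A * X + C B : K[X]) h)) →
  ∃ (f : (Sep K ≃ₐ[K] Sep K) → Pt (sW A B) (Sep K)) (β : Sep K → Sep K), Coc2 (sW A B) f ∧
    IsBeta A B f β ∧ ∀ t : Sep K, Rt A B t → aeval t h = β t ^ 2

/-- (COB) Cocycles are cohomologous if and only if the classes are equal. (`S_GT`, proved in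
`N187/PP/GN.lean` as `gt`, for `f - g` and `β γ`; conversely if `f - g` is the coboundary of `T` then
`t ↦ sg T t * β t * γ t` commutes with the Galois group, so it is `s(t)` for a polynomial `s`,
`exists_poly` in `N187/PP/GN.lean`.) -/
def S_COB : Prop := ∀ (K : Type) [Field K] (A B : K), (6 : K) ≠ 0 → 4 * A ^ 3 + 27 * B ^ 2 ≠ 0 →
  Irreducible (X ^ 3 + C A * X + C B : K[X]) →
  ∀ (f g : (Sep K ≃ₐ[K] Sep K) → Pt (sW A B) (Sep K)) (β γ : Sep K → Sep K) (h k : K[X]),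
  Coc2 (sW A B) f → Coc2 (sW A B) g → IsBeta A B f β → IsBeta A B g γ →
  (∀ t : Sep K, Rt A B t → aeval t h = β t ^ 2) → (∀ t : Sep K, Rt A B t → aeval t k = γ t ^ 2) →
  (Cob (sW A B) (fun σ => f σ - g σ) ↔
    IsSquare (AdjoinRoot.mk (X ^ 3 + C A * X + C B : K[X]) (h * k)))

/-- (COC) The converse of `S_GLF` (`N874/QM/Stm.lean`, proved in `N42/QM/Glf.lean`). Proof. Let
`h * ∏ (xᵢ - X) = s²` modulo the cubic over `F`, with points `Pᵢ = (xᵢ, yᵢ)`, `yᵢ ≠ 0`. Take an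
embedding `ι : Sep M → Sep F` and points `Qᵢ` over `Sep F` with `2 Qᵢ = Pᵢ`. By `S_GP1`
`(ι (β t) ∏ rr (ι t) Qᵢ)² = s(ι t)²`, so `ι (β t) ∏ rr (ι t) Qᵢ = η(t) s(ι t)` with signs `η(t)`;
the product over the three roots of the left side and of `s` are fixed by the Galois group, and
if the product of the `η(t)` is `-1` replace `s` by `-s`. Take `T` in `W[2]` with `sg T (ι t) = η(t)`
(`S_GP3`). Then `P = T + ∑ Qᵢ` has `τ P - P = ι (f σ)` for `σ = τ | Sep M`, by `S_GP2`, `S_GP4` and the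
uniqueness in `S_GP3`. -/
def S_COC : Prop := ∀ (M F : Type) [Field M] [Field F] [Algebra M F] (A B : M), (6 : M) ≠ 0 →
  4 * A ^ 3 + 27 * B ^ 2 ≠ 0 →
  ∀ f : (Sep M ≃ₐ[M] Sep M) → Pt (sW A B) (Sep M), Coc2 (sW A B) f →
  ∀ (β : Sep M → Sep M) (h : M[X]), IsBeta A B f β →
    (∀ t : Sep M, Rt A B t → aeval t h = β t ^ 2) →
    ClF F (X ^ 3 + C A * X + C B) h → LocTriv (sW A B) F (Sep F) f

/-- (COD) `S_COA → S_COB → S_COC → S_GLF → S_FARC → S_FARR → S_COD`: the two descriptions of the 2-Selmer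
group agree. The map from cocycles to classes is in `N521/QM/Selc.lean` (`PLoc` gives a list with at
most one point). -/
def S_COD : Prop := ∀ (M : Type) [Field M] [NumberField M] (A B : 𝓞 M) (N : ℕ),
  4 * A ^ 3 + 27 * B ^ 2 ≠ 0 → Irreducible (fF (X ^ 3 + C A * X + C B : (𝓞 M)[X])) →
  SelN (X ^ 3 + C A * X + C B : (𝓞 M)[X]) N → SelCN (sW (A : M) (B : M)) N

/-! ### The height with normalized absolute values -/

/-- (UNI) Units with prescribed absolute values, up to a constant (Dirichlet's unit theorem: the unit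
lattice spans the trace zero space, `NumberField.Units.dirichletUnitTheorem`). -/
def S_UNI : Prop := ∀ (F : Type) [Field F] [NumberField F], ∃ C : ℝ, 1 ≤ C ∧
  ∀ T : InfinitePlace F → ℝ, (∀ v, 0 < T v) → ∏ v, T v ^ v.mult = 1 →
  ∃ ε : (𝓞 F)ˣ, ∀ v : InfinitePlace F, T v ≤ C * v ((ε : 𝓞 F) : F) ∧ v ((ε : 𝓞 F) : F) ≤ C * T v

/-- (UTW) Twist by the square of a unit. (`S_TRK` for `D = ε ^ 2` over all the completions; compare
`L0h3/SP/SELJ.lean`, `L0h3/SP/COR.lean`; the polynomial is `f.scaleRoots (ε ^ 2)`.) -/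
def S_UTW : Prop := ∀ (F : Type) [Field F] [NumberField F] (A B : 𝓞 F) (ε : (𝓞 F)ˣ) (N : ℕ),
  Irreducible (fF (X ^ 3 + C A * X + C B : (𝓞 F)[X])) →
  SelN (X ^ 3 + C A * X + C B : (𝓞 F)[X]) N →
  Irreducible (fF (X ^ 3 + C ((ε : 𝓞 F) ^ 4 * A) * X + C ((ε : 𝓞 F) ^ 6 * B) : (𝓞 F)[X])) ∧
    SelN (X ^ 3 + C ((ε : 𝓞 F) ^ 4 * A) * X + C ((ε : 𝓞 F) ^ 6 * B) : (𝓞 F)[X]) N

/-- The pairs of height at most `X`, for the height `max_v max (|A|_v ^ 3, |B|_v ^ 2)` with the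
normalized absolute values `|x|_v = v(x) ^ (mult v)`. -/
structure PCrv {F : Type} [Field F] [NumberField F] (X : ℝ) (p : 𝓞 F × 𝓞 F) : Prop where
  disc : 4 * p.1 ^ 3 + 27 * p.2 ^ 2 ≠ 0
  ht : ∀ v : InfinitePlace F, (v (p.1 : F) ^ v.mult) ^ 3 ≤ X ∧ (v (p.2 : F) ^ v.mult) ^ 2 ≤ X

/-- (PRD) `S_PTS → S_MNS → S_UNI → S_UTW → S_PRD`. Let `X = T ^ 6`, so `|A|_v ≤ T ^ 2`, `|B|_v ≤ T ^ 3`;
with `n_v` = `mult v`, `r` = number of the places `v` and `d = [F : ℚ]` put `U = T ^ (r / d)` and let `ε`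
be the unit of UNI for `T_v = (U / T ^ (1 / n_v)) ^ (1 / 2)` (the product of the `T_v ^ n_v` is
`(U ^ d / T ^ r) ^ (1 / 2) = 1`). Then `(A, B) ↦ (ε ^ 4 A, ε ^ 6 B)` maps the pairs of height at most
`X` into the box `v(A') ≤ C ^ 4 U ^ 2`, `v(B') ≤ C ^ 6 U ^ 3` for all `v` (at most
`const * U ^ (5 d)` pairs by PTS), and `(A', B') ↦ (ε⁻⁴ A', ε⁻⁶ B')` maps the box `Ht 1 B` with
`C * B ≤ U` (so `C ^ 4 B ^ 2 ≤ U ^ 2` needs `C ^ 2 B ≤ U`) into the pairs of height at most `X`. Compare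
`N61/PF/Fin1.lean`, `L0h33/SP/FNS.lean`. (The pair `(1, 0)` shows that the set is nonempty.) -/
def S_PRD : Prop := ∀ (F : Type) [Field F] [NumberField F] (a : ℕ), ∃ c : ℝ, 0 < c ∧ ∃ X₀ : ℝ,
  ∀ X : ℝ, {p : 𝓞 F × 𝓞 F | PCrv X p}.Finite ∧ (X₀ ≤ X → 0 < {p : 𝓞 F × 𝓞 F | PCrv X p}.ncard ∧
    c * ({p : 𝓞 F × 𝓞 F | PCrv X p}.ncard : ℝ) ≤
      ({p : 𝓞 F × 𝓞 F | PCrv X p ∧
        Irreducible (fF (Polynomial.X ^ 3 + C p.1 * Polynomial.X + C p.2 : (𝓞 F)[X])) ∧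
        SelN (Polynomial.X ^ 3 + C p.1 * Polynomial.X + C p.2 : (𝓞 F)[X]) (2 ^ a)}.ncard : ℝ))

end Pool.Agent.L0h94.SP
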