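import Pool.Agent.L0h94.SP.StmE
import Pool.Agent.L0h94.SP.StmF
import Pool.Agent.N783.PF.Final
import Pool.Agent.L0h55.SP.CQN
import Pool.Agent.L0h55.SP.GPX
import Pool.Agent.L0h63.SP.PBP
import Pool.Agent.L0h63.SP.SQ2
import Pool.Agent.L0h51.SP.PB0P
import Pool.Agent.L0h51.SP.BADP
import Pool.Agent.L0h51.SP.LBM
import Pool.Agent.L0h51.SP.CLL
import Pool.Agent.L0h51.SP.RES1
import Pool.Agent.L0h51.SP.RES2
import Pool.Agent.L0h71.SP.ORBP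
import Pool.Agent.L0h71.SP.CNT
import Pool.Agent.L0h71.SP.LAMJ
import Pool.Agent.L0h19.SP.TVI
import Pool.Agent.L0h57.SP.SDM
import Pool.Agent.L0h57.SP.DISM
import Pool.Agent.L0h57.SP.REDM
import Pool.Agent.L0h57.SP.TYPM
import Pool.Agent.L0h57.SP.RT
import Pool.Agent.L0h84.SP.CHEB
import Pool.Agent.L0h84.SP.SQR
import Pool.Agent.L0h84.SP.TR2
import Pool.Agent.L0h26.SP.EXN
import Pool.Agent.L0h65.SP.WTS
import Pool.Agent.L0h37.SP.LWY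
import Pool.Agent.L0h33.SP.FNS
import Pool.Agent.L0h88.SP.Low
import Pool.Agent.L0h88.SP.Clb
import Pool.Agent.L0h61.SP.CLIMB
import Pool.Agent.L0h3.SP.SELJ
import Pool.Agent.L0h3.SP.COR
import Pool.Agent.L0h22.SP.MNS
import Pool.Agent.L0h33.SP.RKN
import Pool.Agent.L0h57.SP.UREP
import Pool.Agent.L0h61.SP.NPQ
import Pool.Agent.L0h51.SP.CLW
import Pool.Agent.L0h68.SP.CHIM
import Pool.Agent.L0h57.SP.SQW
import Pool.Agent.L0h95.SP.COA
import Pool.Agent.L0h96.SP.COB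
import Pool.Agent.L0h56.SP.COD
import Pool.Agent.L0h56.SP.PRD
import Pool.Agent.L0h59.SP.COC
import Pool.Agent.L0h34.SP.UNI
import Pool.Agent.L0h68.SP.SPX
import Pool.Agent.L0h91.SP.UTW

/-!
# Assembly of project SP (helper94)
-/

set_option autoImplicit false

namespace Pool.Agent.L0h94.SP

open Pool.Agent.N783.PF

/-! ### Counting the polynomials with good local behaviour -/

theorem m_pbp : S_PBP :=
  Pool.Agent.L0h63.SP.t_PBP Pool.Agent.N42.PF.cqa Pool.Agent.L0h55.SP.t_CQN Pool.Agent.N42.PF.cqb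
    Pool.Agent.N490.PF.pts

theorem m_badp : S_BADP :=
  Pool.Agent.L0h51.SP.t_BADP m_pbp Pool.Agent.L0h51.SP.t_PB0P
    (Pool.Agent.L0h71.SP.t_ORBP Pool.Agent.N490.PF.pts)

theorem m_cnt : S_CNT :=
  Pool.Agent.L0h71.SP.t_CNT Pool.Agent.N352.PF.famT bad m_badp
    (Pool.Agent.L0h26.SP.t_EXN Pool.Agent.N710.PF.exs) Pool.Agent.L0h84.SP.t_CHEB

/-! ### The weights -/

theorem m_typm : S_TYPM :=
  Pool.Agent.L0h57.SP.TYP.t_TYPM (Pool.Agent.L0h57.SP.RED.t_REDM Pool.Agent.L0h57.SP.DIS.t_DISM)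
    Pool.Agent.N707.PF.MAJ.maj

theorem m_chim : S_CHIM := Pool.Agent.L0h68.SP.t_CHIM

theorem m_lbm : S_LBM :=
  Pool.Agent.L0h51.SP.t_LBM m_typm Pool.Agent.N707.PF.MAJ.maj m_chim Pool.Agent.N482.PF.sq

theorem m_wts : S_WTS :=
  Pool.Agent.L0h65.SP.t_WTS m_lbm (Pool.Agent.L0h57.SP.t_SDM int) (Pool.Agent.L0h19.SP.t_TVI int)
    (Pool.Agent.N426.PF.ns int exq) (Pool.Agent.N426.PF.parq int exq) exq

/-! ### Many classes, and the choice of the twist -/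

theorem m_npq : S_NPQ := Pool.Agent.L0h61.SP.Npq.t_NPQ int exq

theorem m_sq2 : S_SQ2 := Pool.Agent.L0h63.SP.t_SQ2 int

theorem m_lwy : S_LWY :=
  Pool.Agent.L0h37.SP.lwy (Pool.Agent.L0h88.SP.t_LOW Pool.Agent.L0h88.SP.t_FSEL
    Pool.Agent.L0h88.SP.t_CLB) m_npq m_sq2 Pool.Agent.L0h84.SP.t_SQR

theorem m_lamj : S_LAMJ :=
  Pool.Agent.L0h71.SP.t_LAMJ Pool.Agent.L0h61.SP.Climb.t_CLIMB Pool.Agent.L0h84.SP.t_REAL m_wts
    m_lwy rec Pool.Agent.L0h51.SP.t_CLL exq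

/-! ### The Selmer groups -/

theorem m_urep : S_UREP := Pool.Agent.L0h57.SP.UREP.t_UREP int

theorem m_gpx : S_GPX :=
  Pool.Agent.L0h55.SP.G.t_GPX Pool.Agent.L0h51.SP.t_RES1 Pool.Agent.L0h51.SP.t_RES2 m_urep
    Pool.Agent.L0h57.SP.RT.t_RT

theorem m_spx : S_SPX :=
  Pool.Agent.L0h68.SP.t_SPX int exq csq (Pool.Agent.N426.PF.ns int exq)
    (Pool.Agent.N426.PF.parq int exq) (Pool.Agent.N426.PF.pin int)

theorem m_sqw : S_SQW := Pool.Agent.L0h57.SP.SQWM.t_SQW int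

theorem m_clw : S_CLW := Pool.Agent.L0h51.SP.t_CLW m_sqw

theorem m_selj : S_SELJ :=
  Pool.Agent.L0h3.SP.t_SELJ loc Pool.Agent.L0h51.SP.t_CLL m_gpx m_spx m_clw
    Pool.Agent.L0h84.SP.t_TR2 exq Pool.Agent.N667.PF.irr

theorem m_cor : S_COR :=
  Pool.Agent.L0h3.SP.t_COR m_lamj m_selj sqf Pool.Agent.N667.PF.irr Pool.Agent.N667.PF.gen
    Pool.Agent.N547.PF.min exq

theorem m_mns : S_MNS := Pool.Agent.L0h22.SP.t_MNS Pool.Agent.N490.PF.pts m_cnt m_cor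

theorem m_fns : S_FNS := Pool.Agent.L0h33.SP.t_FNS Pool.Agent.N490.PF.pts m_mns

theorem m_rkn : S_RKN := Pool.Agent.L0h33.SP.t_RKN

/-! ### Normalized absolute values -/

theorem m_uni : S_UNI := Pool.Agent.L0h34.SP.t_UNI

theorem m_utw : S_UTW := Pool.Agent.L0h91.SP.t_UTW

theorem m_prd : S_PRD := Pool.Agent.L0h56.SP.t_PRD Pool.Agent.N490.PF.pts m_mns m_uni m_utw

/-! ### Cohomology -/

theorem m_coc : S_COC := Pool.Agent.L0h59.SP.COC.t_COC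

theorem m_cod : S_COD :=
  Pool.Agent.L0h56.SP.t_COD Pool.Agent.L0h95.SP.t_COA Pool.Agent.L0h96.SP.t_COB m_coc
    (Pool.Agent.N42.QM.glf Pool.Agent.N630.PP.gp1 Pool.Agent.N630.PP.gp2 Pool.Agent.N630.PP.gp3
      Pool.Agent.N630.PP.gp4) Pool.Agent.N530.QM.farc Pool.Agent.N42.QM.farr

end Pool.Agent.L0h94.SP
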