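import Pool.Agent.N783.PF.Loc

/-!
# Project SP (helper94). Statements, part B: many classes; linear algebra; squares and points in the
completions
-/

set_option autoImplicit false
set_option linter.all false

open Polynomial IsDedekindDomain NumberField
open scoped Classical

namespace Pool.Agent.L0h94.SP

open Pool.Agent.N783.PQ (LocIm)
open Pool.Agent.N874.PP (Ev Sq1 U0)
open Pool.Agent.N874.JM (LocF)
open Pool.Agent.N783.PF

/-! ### Many classes -/

/-- `α` is close to a square at the primes over 2. -/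
def Near2 {L : Type} [Field L] [NumberField L] (α : L) : Prop :=
  ∃ s : L, s ≠ 0 ∧ ∀ 𝔓 : HeightOneSpectrum (𝓞 L), (2 : 𝓞 L) ∈ 𝔓.asIdeal →
    𝔓.valuation L (α / s ^ 2 - 1) ≤ 𝔓.valuation L 8

/-- (FSEL) The group of the elements of `F` with even valuations modulo squares is finite (units
modulo squares and the class group). -/
def S_FSEL : Prop := ∀ (F : Type) [Field F] [NumberField F], ∃ C : ℕ, ∀ A : Finset F,
  (∀ x ∈ A, x ≠ 0 ∧ ∀ w : HeightOneSpectrum (𝓞 F), Ev w x) →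
  (∀ x ∈ A, ∀ y ∈ A, x ≠ y → ¬ IsSquare (x * y)) → A.card ≤ C

/-- (CLB) There are at least `2 ^ |Y|` classes modulo squares with even valuations outside `Y`. Proof:
let `G` be their group, `v : G → (ℤ/2)^Y`. The image contains all `e` such that the class of
`∏ 𝔔 ^ (e 𝔔)` is a square in the class group, so the index of the image is at most `|Cl / Cl²|`; the
kernel contains for every class of order dividing 2 an element `β` with `(β) = 𝔞²`, different
modulo squares for different classes, so it has at least `|Cl[2]| = |Cl / Cl²|` elements. -/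
def S_CLB : Prop := ∀ (L : Type) [Field L] [NumberField L] (Y : Finset (HeightOneSpectrum (𝓞 L))),
  ∃ A : Finset L, 2 ^ Y.card ≤ A.card ∧
    (∀ x ∈ A, x ≠ 0 ∧ ∀ 𝔓 : HeightOneSpectrum (𝓞 L), 𝔓 ∉ Y → Ev 𝔓 x) ∧
    ∀ x ∈ A, ∀ y ∈ A, x ≠ y → ¬ IsSquare (x * y)

/-- (LOW) `S_FSEL → S_CLB → S_LOW`: the same with norm a square, close to squares at 2 and totally
positive, up to a constant which depends only on `F` and the degree. Proof: take `A` from CLB. The
norms lie in the finite group of FSEL. For `x ∈ A` choose `t` with `u = x t²` integral and prime to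
2, look at `u` modulo 8 and at the signs. At most `C * 8 ^ d * 2 ^ d` possibilities, `d = [L : ℚ]`.
Take the largest class, and multiply by one fixed element of it. -/
def S_LOW : Prop := ∀ (F : Type) [Field F] [NumberField F] (n : ℕ), ∃ c0 : ℕ,
  ∀ (L : Type) [Field L] [NumberField L] [Algebra F L], Module.finrank F L = n →
  ∀ Y : Finset (HeightOneSpectrum (𝓞 L)), (∀ 𝔓 ∈ Y, (2 : 𝓞 L) ∉ 𝔓.asIdeal) →
  (∀ x : L, x ≠ 0 → (∀ 𝔓 : HeightOneSpectrum (𝓞 L), 𝔓 ∉ Y → Ev 𝔓 x) →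
    ∀ w : HeightOneSpectrum (𝓞 F), Ev w (Algebra.norm F x)) →
  ∃ A : Finset L, 2 ^ Y.card ≤ c0 * A.card ∧
    (∀ x ∈ A, x ≠ 0 ∧ IsSquare (Algebra.norm F x) ∧
      (∀ 𝔓 : HeightOneSpectrum (𝓞 L), 𝔓 ∉ Y → Ev 𝔓 x) ∧ Near2 x ∧ ∀ τ : L →+* ℝ, 0 < τ x) ∧
    ∀ x ∈ A, ∀ y ∈ A, x ≠ y → ¬ IsSquare (x * y)

/-- (NPQ) The norm has even valuations: the degree of `𝔔 q` over `𝔮 q` is even (`2 g`). Compare
`N426/PF/Par.lean` (valuations of norms) and `S_CSQ`. -/
def S_NPQ : Prop := ∀ (g W : ℕ) (F L : Type) [Field F] [NumberField F] [Field L] [NumberField L]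
  [Algebra F L] (f : (𝓞 F)[X]) (θ : L) (S : Finset ℕ) (𝔮 : ℕ → Ideal (𝓞 F))
  (r P : ℕ → (𝓞 F)[X]), 1 ≤ g → IsGen g f θ → SqF g f → GoodS g W S 𝔮 r P →
  (∀ q ∈ S, Cg (𝔮 q) f (X * r q)) →
  ∀ 𝔔 : ℕ → HeightOneSpectrum (𝓞 L), (∀ q ∈ S, Ov (𝔮 q) (𝔔 q) ∧ (𝔔 q).valuation L θ = 1) →
  ∀ x : L, x ≠ 0 → (∀ 𝔓 : HeightOneSpectrum (𝓞 L), (∀ q ∈ S, 𝔓 ≠ 𝔔 q) → Ev 𝔓 x) →
  ∀ w : HeightOneSpectrum (𝓞 F), Ev w (Algebra.norm F x)

/-! ### Linear algebra over the field with two elements -/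

/-- (CHEB) Chebyshev's inequality for the number of the elements of the subsets. -/
def S_CHEB : Prop := ∀ (U : Finset ℕ) (D : ℕ),
  (U.powerset.filter fun Z => (U.card : ℤ) ≤ D * |2 * (Z.card : ℤ) - U.card|).card * U.card ≤
    D ^ 2 * 2 ^ U.card

/-- (REAL) If every nonzero `x` is zero at about half of the points of `U`, then every functional is
the evaluation at one point. -/
def S_REAL : Prop := ∀ (V : Type) [AddCommGroup V] [Finite V], (∀ x : V, x + x = 0) →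
  ∀ (U : Finset ℕ) (e : ℕ → V →+ ZMod 2), U.Nonempty →
  (∀ x : V, x ≠ 0 →
    (Nat.card V : ℤ) * |2 * ((U.filter fun q => e q x = 0).card : ℤ) - U.card| < U.card) →
  ∀ φ : V →+ ZMod 2, ∃ q ∈ U, e q = φ

/-- the union of the first `i` blocks -/
def sup (T : ℕ → Finset ℕ) (i : ℕ) : Finset ℕ := (Finset.range i).biUnion T

/-- `x` lies in the coordinate subspace of `J`: the second component is zero at the points of `J`,
the first component outside `J`. -/
def InW (J : Finset ℕ) (x : ℕ → ZMod 2 × ZMod 2) : Prop :=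
  (∀ q ∈ J, (x q).2 = 0) ∧ ∀ q, q ∉ J → (x q).1 = 0

/-- (CLIMB) The main linear algebra. Write `x q = (r, u)` (ramified part, unramified part). `Λ` is
totally singular for `∑ r u`; for all sets `Y` the elements unramified outside `Y` are at
least `2 ^ |Y| / c0`; every functional on the elements ramified only in the first `i + 1` blocks is
the evaluation at one point of the next block. Then some coordinate subspace meets `Λ` in exactly
`2 ^ a` elements. See docs `SP_climb`. -/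
def S_CLIMB : Prop := ∀ a c0 : ℕ, ∃ M : ℕ, 0 < M ∧ ∀ (T : ℕ → Finset ℕ)
  (Λ : AddSubgroup (ℕ → ZMod 2 × ZMod 2)),
  (∀ i < M, ∀ j < M, i ≠ j → Disjoint (T i) (T j)) →
  (∀ x ∈ Λ, ∀ q, q ∉ sup T M → x q = 0) →
  (∀ x ∈ Λ, ∑ q ∈ sup T M, (x q).1 * (x q).2 = 0) →
  (∀ Y ⊆ sup T M, 2 ^ Y.card ≤ c0 * Nat.card {x : Λ // ∀ q, q ∉ Y → (x.1 q).1 = 0}) →
  (∀ x ∈ Λ, (∀ q, (x q).1 = 0) → (∀ q ∈ T 0, (x q).2 = 0) → x = 0) →
  (∀ i, i + 1 < M → ∀ φ : Λ →+ ZMod 2, ∃ q ∈ T (i + 1), ∀ x : Λ,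
    (∀ q', q' ∉ sup T (i + 1) → (x.1 q').1 = 0) → (x.1 q).2 = φ x) →
  ∃ J ⊆ sup T M, Nat.card {x : Λ // InW J x.1} = 2 ^ a

/-! ### Squares in the completions -/

/-- (SQ2) Elements close to squares at 2 are squares in the completion (`f` is irreducible modulo
the primes over 2 or at least its discriminant has no square factor, so `𝓞 L = 𝓞 F [θ]`;
`1 + 8 t` is a square in the complete ring `𝓞_w[X] / (f)`: `X ^ 2 + X = 2 t`). -/
def S_SQ2 : Prop := ∀ (g : ℕ) (F L : Type) [Field F] [NumberField F] [Field L] [NumberField L]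
  [Algebra F L] (f : (𝓞 F)[X]) (θ : L), 1 ≤ g → IsGen g f θ → SqF g f →
  ∀ w : HeightOneSpectrum (𝓞 F), (2 : 𝓞 F) ∈ w.asIdeal → ∀ h : F[X], aeval θ h ≠ 0 →
  Near2 (aeval θ h) → ∃ s : (w.adicCompletion F)[X],
    (fF f).map (algebraMap F (w.adicCompletion F)) ∣
      h.map (algebraMap F (w.adicCompletion F)) - s ^ 2

/-- (SQW) The same at the other primes, from `Sq1` at all primes over `w` (weak approximation gives
`t` with `α / t ^ 2` congruent to `1` modulo all primes over `w`; Hensel in `𝓞_w[X] / (f)`, for an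
element whose reduction is `1 +` nilpotent; an odd power of the element is `1` modulo `w`). -/
def S_SQW : Prop := ∀ (g : ℕ) (F L : Type) [Field F] [NumberField F] [Field L] [NumberField L]
  [Algebra F L] (f : (𝓞 F)[X]) (θ : L), 1 ≤ g → IsGen g f θ → SqF g f →
  ∀ w : HeightOneSpectrum (𝓞 F), (2 : 𝓞 F) ∉ w.asIdeal → ∀ h : F[X], aeval θ h ≠ 0 →
  (∀ 𝔓 : HeightOneSpectrum (𝓞 L), Ov w.asIdeal 𝔓 → Sq1 𝔓 (aeval θ h)) →
  ∃ s : (w.adicCompletion F)[X],
    (fF f).map (algebraMap F (w.adicCompletion F)) ∣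
      h.map (algebraMap F (w.adicCompletion F)) - s ^ 2

/-- (SQR) The same at a real place, from total positivity (interpolation at the roots of `f`). -/
def S_SQR : Prop := ∀ (g : ℕ) (F L : Type) [Field F] [NumberField F] [Field L] [NumberField L]
  [Algebra F L] (f : (𝓞 F)[X]) (θ : L), IsGen g f θ → ∀ σ : F →+* ℝ, ∀ h : F[X],
  aeval θ h ≠ 0 → (∀ τ : L →+* ℝ, 0 < τ (aeval θ h)) →
  ∃ s : ℝ[X], (fF f).map σ ∣ h.map σ - s ^ 2

/-! ### Points -/

/-- The class of `h(Θ)`, `f(Θ) = 0`, lies in the subgroup generated by the classes of `x - Θ` for the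
points `(x, y)`, `y ≠ 0`, of `y ^ 2 = f(x)` over the field `K`. -/
def Cl (K : Type) [Field K] (f h : K[X]) : Prop :=
  ∃ (l : List (K × K)) (s : K[X]), (∀ p ∈ l, p.2 ≠ 0 ∧ p.2 ^ 2 = f.eval p.1) ∧
    f ∣ h * (l.map fun p => C p.1 - X).prod - s ^ 2

/-- The same over an extension `E` of the field `K`. -/
def ClF {K : Type} (E : Type) [Field K] [Field E] [Algebra K E] (f h : K[X]) : Prop :=
  Cl E (f.map (algebraMap K E)) (h.map (algebraMap K E))

/-- (CLL) Comparison with `LocIm` (divisors of points). -/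
def S_CLL : Prop := ∀ (K : Type) [Field K] (f h : K[X]), Cl K f h → LocIm K f h

/-- (RES1) Over a finite field, three different roots or less, by counting: let `S` be the sum of the
quadratic character over the values of `f`; `|k| + 1 + S > 0` is the number of points of
`y ^ 2 = f(x)`, and the number of the `x` with prescribed characters of `x - θ i` is a quarter or an
eighth of this number up to terms which are controlled by the classes of the points of order 2. The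
element `C e - X + f /ₘ (X - C e)` is the class of the point `(e, 0)`. See docs `SP_res`. -/
def S_RES1 : Prop := ∀ (k : Type) [Field k] [Finite k], (2 : k) ≠ 0 → ∀ f h : k[X], f.Monic →
  f.natDegree = 3 → f.Separable → IsCoprime h f → IsSquare (Algebra.norm k (AdjoinRoot.mk f h)) →
  (∃ s : k[X], f ∣ h - s ^ 2) ∨
  (∃ (x : k) (s : k[X]), f.eval x ≠ 0 ∧ f ∣ h * (C x - X) - s ^ 2) ∨
  ∃ (e : k) (s : k[X]), f.eval e = 0 ∧ f ∣ h * (C e - X + f /ₘ (X - C e)) - s ^ 2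

/-- (RES2) Over a finite field, a double root `n`. -/
def S_RES2 : Prop := ∀ (k : Type) [Field k] [Finite k], (2 : k) ≠ 0 → ∀ n e a b : k, e ≠ n →
  a ≠ 0 → b ≠ 0 → IsSquare b → (IsSquare a ∨
  (∃ x : k, x ≠ n ∧ x ≠ e ∧ IsSquare ((x - e) * b) ∧ IsSquare ((x - n) * a)) ∨
  IsSquare ((e - n) * a))

/-- (UREP) An element with even valuations over `w` has a representative `h'(D θ)` which is a unit
over `w`. -/
def S_UREP : Prop := ∀ (g : ℕ) (F L : Type) [Field F] [NumberField F] [Field L] [NumberField L]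
  [Algebra F L] (f : (𝓞 F)[X]) (θ : L), 1 ≤ g → IsGen g f θ → SqF g f →
  ∀ w : HeightOneSpectrum (𝓞 F), ∀ D : ℕ, (D : 𝓞 F) ∉ w.asIdeal → ∀ α : L, α ≠ 0 →
  (∀ 𝔓 : HeightOneSpectrum (𝓞 L), Ov w.asIdeal 𝔓 → Ev 𝔓 α) →
  ∃ (t : L) (h : (𝓞 F)[X]), t ≠ 0 ∧ aeval ((D : L) * θ) (fF h) = α * t ^ 2 ∧
    (∀ 𝔓 : HeightOneSpectrum (𝓞 L), Ov w.asIdeal 𝔓 →
      𝔓.valuation L (aeval ((D : L) * θ) (fF h)) = 1) ∧
    IsCoprime (rd w.asIdeal h) (rd w.asIdeal (f.scaleRoots ((D : ℕ) : 𝓞 F)))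

/-- (RT) The reduction of a cubic polynomial whose discriminant is not divisible by `𝔭 ^ 2`. -/
def S_RT : Prop := ∀ (F : Type) [Field F] [NumberField F] (f : (𝓞 F)[X]), f.Monic →
  f.natDegree = 3 → ∀ w : HeightOneSpectrum (𝓞 F), (2 : 𝓞 F) ∉ w.asIdeal →
  dsc 1 f ∉ w.asIdeal ^ 2 → (rd w.asIdeal f).Separable ∨
    ∃ n e : 𝓞 F, e - n ∉ w.asIdeal ∧ rd w.asIdeal f = rd w.asIdeal ((X - C n) ^ 2 * (X - C e))

/-- (GPX) `S_RES1 → S_RES2 → S_UREP → S_RT → S_GPX`. Elliptic curves, primes `w` not dividing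
`2 D`: a class with even valuations and square norm comes from a point of the twist by `D`. In the
case of a point of order 2 with root `e` modulo `w` take `x` near the root: `x = c + f'(c) z ^ 2`
with `f(c)` divisible by a high power of `w` and `z` divisible by `w` exactly once (for the
polynomial `f.scaleRoots D` in place of `f`). -/
def S_GPX : Prop := ∀ (F L : Type) [Field F] [NumberField F] [Field L] [NumberField L]
  [Algebra F L] (f : (𝓞 F)[X]) (θ : L), IsGen 1 f θ → SqF 1 f →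
  ∀ w : HeightOneSpectrum (𝓞 F), (2 : 𝓞 F) ∉ w.asIdeal → ∀ D : ℕ, (D : 𝓞 F) ∉ w.asIdeal →
  ∀ α : L, α ≠ 0 → IsSquare (Algebra.norm F α) →
  (∀ 𝔓 : HeightOneSpectrum (𝓞 L), Ov w.asIdeal 𝔓 → Ev 𝔓 α) →
  (∀ 𝔓 : HeightOneSpectrum (𝓞 L), Ov w.asIdeal 𝔓 → Sq1 𝔓 α) ∨
  ∃ x : F, ∀ 𝔓 : HeightOneSpectrum (𝓞 L), Ov w.asIdeal 𝔓 →
    Sq1 𝔓 ((algebraMap F L x - (D : L) * θ) * α)

/-- (SPX) The primes over `q ∈ J`, `D = Dp J`. At `𝔮 q`: if `α` is even at the big prime `𝔔`, it is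
a local square (`S_NS`). Otherwise `α q θ` is a square at `𝔔`; take `x` near the root:
`x = D c + f'(c) z ^ 2` with `f(c)` divisible by a high power of `𝔮 q`, `c` in `𝔮 q`, `z` divisible by
`𝔮 q` exactly once; elements of `F` prime to `𝔮 q` are squares at `𝔔` (`S_CSQ`), the class at the
other prime follows from the norm (both are the class of `f'(c)`, which is the norm of `θ` at `𝔔`).
At the other primes over `q` the polynomial is irreducible and the class is trivial (`S_PIN` and the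
norm, the degree is odd). -/
def S_SPX : Prop := ∀ (g W : ℕ) (F L : Type) [Field F] [NumberField F] [Field L] [NumberField L]
  [Algebra F L] (f : (𝓞 F)[X]) (θ : L) (S J : Finset ℕ) (𝔮 : ℕ → Ideal (𝓞 F))
  (r P : ℕ → (𝓞 F)[X]), 1 ≤ g → IsGen g f θ → SqF g f → GoodS g W S 𝔮 r P →
  (∀ q ∈ S, Cg (sp F q) f (P q)) → J ⊆ S → ∀ q ∈ J,
  ∀ w : HeightOneSpectrum (𝓞 F), (q : 𝓞 F) ∈ w.asIdeal →
  ∀ α : L, α ≠ 0 → IsSquare (Algebra.norm F α) →
  (∀ 𝔓 : HeightOneSpectrum (𝓞 L), Ov (𝔮 q) 𝔓 → 𝔓.valuation L θ = 1 →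
    U0 𝔓 ((q : L) * θ) α) →
  (∀ 𝔓 : HeightOneSpectrum (𝓞 L), Ov w.asIdeal 𝔓 → Sq1 𝔓 α) ∨
  ∃ x : F, ∀ 𝔓 : HeightOneSpectrum (𝓞 L), Ov w.asIdeal 𝔓 →
    Sq1 𝔓 ((algebraMap F L x - (Dp J : L) * θ) * α)

/-- (CLW) `S_SQW → S_CLW`: from `Sq1` to points over the completion (the norm of
`(x - D Θ) h(D Θ)` is `f(x)` times a square and is a square). -/
def S_CLW : Prop := ∀ (F L : Type) [Field F] [NumberField F] [Field L] [NumberField L]
  [Algebra F L] (f : (𝓞 F)[X]) (θ : L), IsGen 1 f θ → SqF 1 f →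
  ∀ w : HeightOneSpectrum (𝓞 F), (2 : 𝓞 F) ∉ w.asIdeal → ∀ D : ℕ, 0 < D → ∀ h : F[X],
  aeval ((D : L) * θ) h ≠ 0 → IsSquare (Algebra.norm F (aeval ((D : L) * θ) h)) →
  ((∀ 𝔓 : HeightOneSpectrum (𝓞 L), Ov w.asIdeal 𝔓 → Sq1 𝔓 (aeval ((D : L) * θ) h)) ∨
  ∃ x : F, ∀ 𝔓 : HeightOneSpectrum (𝓞 L), Ov w.asIdeal 𝔓 →
    Sq1 𝔓 ((algebraMap F L x - (D : L) * θ) * aeval ((D : L) * θ) h)) →
  ClF (w.adicCompletion F) (fF (f.scaleRoots ((D : ℕ) : 𝓞 F))) h

/-- (TRK) Twist by a square, cubic polynomials. -/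
def S_TRK : Prop := ∀ (K : Type) [Field K] (f h : K[X]) (D r : K), f.Monic → f.natDegree = 3 →
  r ≠ 0 → D = r ^ 2 → (Cl K f (h.comp (C D * X)) ↔ Cl K (f.scaleRoots D) h)

/-- (TR2) The products of primes `1 mod 8` are squares at the places over 2 and at the real
places: `S_TRK → S_TR2`. -/
def S_TR2 : Prop := ∀ (F : Type) [Field F] [NumberField F] (f : (𝓞 F)[X]) (h : F[X]) (D : ℕ),
  f.Monic → f.natDegree = 3 → D % 8 = 1 →
  (∀ w : HeightOneSpectrum (𝓞 F), (2 : 𝓞 F) ∈ w.asIdeal →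
    (ClF (w.adicCompletion F) (fF f) (h.comp (C (D : F) * X)) ↔
      ClF (w.adicCompletion F) (fF (f.scaleRoots ((D : ℕ) : 𝓞 F))) h)) ∧
  ∀ σ : F →+* ℝ, (Cl ℝ ((fF f).map σ) ((h.comp (C (D : F) * X)).map σ) ↔
    Cl ℝ ((fF (f.scaleRoots ((D : ℕ) : 𝓞 F))).map σ) (h.map σ))

end Pool.Agent.L0h94.SP
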