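import Pool.Agent.L0h94.SP.StmA
import Pool.Agent.L0h94.SP.StmB
import Pool.Agent.N783.PF.Fin

/-!
# Project SP (helper94). Statements, part E: assembly
-/

set_option autoImplicit false
set_option linter.all false

open Polynomial IsDedekindDomain NumberField
open scoped Classical

namespace Pool.Agent.L0h94.SP

open Pool.Agent.N352.PJ (Mt Typ dd)
open Pool.Agent.N783.PQ (LocIm)
open Pool.Agent.N874.PP (Ev Sq1 U0)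
open Pool.Agent.N874.JM (LocF)
open Pool.Agent.N783.PF

/-! ### The Selmer group -/

section sel

variable {F : Type} [Field F] [NumberField F]

/-- The class of `h(Θ)` lies in the 2-Selmer group over `F` of `y ^ 2 = f(x)`, `f` of degree three. -/
def SelH (f : (𝓞 F)[X]) (h : F[X]) : Prop :=
  IsCoprime h (fF f) ∧ IsSquare (Algebra.norm F (AdjoinRoot.mk (fF f) h)) ∧
    (∀ w : HeightOneSpectrum (𝓞 F), ClF (w.adicCompletion F) (fF f) h) ∧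
    ∀ σ : F →+* ℝ, Cl ℝ ((fF f).map σ) (h.map σ)

/-- The 2-Selmer group has exactly `N` elements. -/
def SelN (f : (𝓞 F)[X]) (N : ℕ) : Prop :=
  ∃ R : Finset F[X], R.card = N ∧ (∀ h ∈ R, SelH f h) ∧
    (∀ h ∈ R, ∀ h' ∈ R, h ≠ h' → ¬ IsSquare (AdjoinRoot.mk (fF f) (h * h'))) ∧
    ∀ h, SelH f h → ∃ h' ∈ R, IsSquare (AdjoinRoot.mk (fF f) (h * h'))

/-! ### The blocks and the good polynomials -/

/-- `Z` is not about half of `U` (`y` is the number of the primes before). -/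
def Dev (y : ℕ) (U Z : Finset ℕ) : Prop :=
  Z ⊆ U ∧ (U.card : ℤ) ≤ (4 ^ y : ℕ) * |2 * (Z.card : ℤ) - U.card|

/-- The blocks: `M` disjoint sets of primes; the primes in the block `i` and in the later ones are
larger than `κf (sup T i)`. -/
structure Blk (W M : ℕ) (κf : Finset ℕ → ℕ) (T : ℕ → Finset ℕ) (𝔮 : ℕ → Ideal (𝓞 F))
    (r P : ℕ → (𝓞 F)[X]) : Prop where
  good : GoodS 1 W (sup T M) 𝔮 r P
  disj : ∀ i < M, ∀ j < M, i ≠ j → Disjoint (T i) (T j)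
  big : ∀ i < M, ∀ q ∈ sup T M, q ∉ sup T i → κf (sup T i) < q

/-- The good polynomials. -/
structure GF (B W M κ0 : ℕ) (κf : Finset ℕ → ℕ) (f₁ : (𝓞 F)[X]) (T : ℕ → Finset ℕ)
    (𝔮 : ℕ → Ideal (𝓞 F)) (P : ℕ → (𝓞 F)[X]) (f : (𝓞 F)[X]) : Prop where
  fam : Fam 1 B W f₁ (sup T M) P f
  sq : ∃ N, 2 ^ κ0 * B ≤ 4 ^ N ∧ ¬ LBad 1 N κ0 (sup T M) 𝔮 P f
  cls : ∀ i < M, ∃ N, 2 ^ (κf (sup T i)) * B ≤ 4 ^ N ∧ ∀ Z : Finset ℕ,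
    Dev (sup T i).card (T i) Z →
    ¬ LP 1 N (κf (sup T i)) (sup T M \ sup T i) (T i) Z 𝔮 P f

end sel

/-- (EXN) Nested blocks (from `S_EXS`, applied `M` times with larger and larger bounds; the functions
`𝔮`, `r`, `P` are put together). -/
def S_EXN : Prop := ∀ (F : Type) [Field F] [NumberField F] (W M : ℕ) (φ ψ : Finset ℕ → ℕ),
  ∃ (T : ℕ → Finset ℕ) (𝔮 : ℕ → Ideal (𝓞 F)) (r P : ℕ → (𝓞 F)[X]), Blk W M φ T 𝔮 r P ∧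
    ∀ i < M, (T i).card = ψ (sup T i)

/-- (CNT) `S_FAM → S_BAD → S_BADP → S_EXN → S_CHEB → S_CNT`: many good polynomials. Proof. `W`, `f₁`,
`c` from FAM (for `K` = maximum of `K0` and the constant of BAD for `κ0`). Put
`m(Y) = ∏ q ∈ Y, q`; for `i < M` and `Y = sup T i` let `C(Y)`, `K(Y)` be the constants of BADP for
`κf Y`; `φ Y = max (κf Y) (K Y)` (and at least `W`), `ψ Y` large in terms of `Y`. Take `N i` minimal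
with `2 ^ (κf Y) * B ≤ 4 ^ (N i)`, so `4 ^ (N i) ≤ 4 * 2 ^ (κf Y) * B`. For `Z` with `Dev` BADP for
`S = sup T M \ Y` and `U = T i` gives, times `∏ q ∈ Y, q ^ (2 g)`,
`(∏ q ∈ sup T M, q ^ 2) ^ d * #LP ≤ (∏ q ∈ Y, q ^ 2) ^ d * C(Y) * 2 ^ (-|T i|) * (4 * 2 ^ κf Y) ^ D * B ^ D`,
`D = d * dd 1`, and by CHEB there are at most `16 ^ |Y| * 2 ^ |T i| / |T i|` sets `Z`. So the sum
over `Z` is at most `c / (4 M) * B ^ D` if `ψ Y = |T i|` is large. In the same way for `LBad` with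
`2 ^ |sup T M| ≥ 2 ^ |T 0|`. Compare `N99/PF/Main.lean` (`good_card`). -/
def S_CNT : Prop := ∀ (F : Type) [Field F] [NumberField F] (M κ0 K0 : ℕ) (κf : Finset ℕ → ℕ), 0 < M →
  ∃ (W : ℕ) (f₁ : (𝓞 F)[X]) (T : ℕ → Finset ℕ) (𝔮 : ℕ → Ideal (𝓞 F)) (r P : ℕ → (𝓞 F)[X]),
  K0 ≤ W ∧ GoodF 1 W f₁ ∧ Blk W M κf T 𝔮 r P ∧ (∀ i < M, (T i).Nonempty) ∧
  ∃ c : ℝ, 0 < c ∧ ∃ B₀ : ℕ, ∀ B ≥ B₀,
    c * (B : ℝ) ^ (Module.finrank ℚ F * dd 1) ≤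
      ({f : (𝓞 F)[X] | GF B W M κ0 κf f₁ T 𝔮 P f}.ncard : ℝ)

section grp

variable {F L : Type} [Field F] [NumberField F] [Field L] [NumberField L] [Algebra F L]

/-- The classes ramified at most at the primes `𝔔 q`, `q ∈ S`, with the local conditions at 2 and
infinity. -/
def Mg (f : (𝓞 F)[X]) (θ : L) (S : Finset ℕ) (𝔔 : ℕ → HeightOneSpectrum (𝓞 L)) (α : L) : Prop :=
  α ≠ 0 ∧ IsSquare (Algebra.norm F α) ∧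
    (∀ 𝔓 : HeightOneSpectrum (𝓞 L), (∀ q ∈ S, 𝔓 ≠ 𝔔 q) → Ev 𝔓 α) ∧
    ∃ h₀ : F[X], aeval θ h₀ = α ∧
      (∀ w : HeightOneSpectrum (𝓞 F), (2 : 𝓞 F) ∈ w.asIdeal →
        ClF (w.adicCompletion F) (fF f) h₀) ∧
      ∀ σ : F →+* ℝ, Cl ℝ ((fF f).map σ) (h₀.map σ)

/-- The localizations (compare `cl` in `N891/PQ/TwA.lean`). -/
noncomputable def psi (θ : L) (S : Finset ℕ) (𝔔 : ℕ → HeightOneSpectrum (𝓞 L)) (α : L) (q : ℕ) :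
    ZMod 2 × ZMod 2 :=
  if q ∈ S then (if Ev (𝔔 q) α then 0 else 1, if U0 (𝔔 q) ((q : L) * θ) α then 0 else 1) else 0

/-- The data: `𝔔 q` is the big prime over `𝔮 q`. -/
def BigQ (θ : L) (S : Finset ℕ) (𝔮 : ℕ → Ideal (𝓞 F)) (𝔔 : ℕ → HeightOneSpectrum (𝓞 L)) : Prop :=
  ∀ q ∈ S, Ov (𝔮 q) (𝔔 q) ∧ (𝔔 q).valuation L θ = 1

end grp

/-- (WTS) The weights. `α` not a square, ramified at most in `sup T i`, with norm a square: the number of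
the `q ∈ T i` where `α` is a local square is about half of `|T i|`. From `S_LBM` (with
`m = ∏ q ∈ sup T i, q`; `κf Y` is the `κ` of LBM for `m = ∏ q ∈ Y, q`), `S_SDM`, `S_TVI`, `S_NS`,
`S_PARQ`, `S_EXQ`: `Z = {q ∈ T i | Sq1 (𝔔 q) α}`; then `LP` holds, so not `Dev`. Compare the end of
`N771/PF/Core.lean`. -/
def S_WTS : Prop := ∀ (F : Type) [Field F] [NumberField F], ∃ κf : Finset ℕ → ℕ,
  ∀ (L : Type) [Field L] [NumberField L] [Algebra F L] (f f₁ : (𝓞 F)[X]) (θ : L) (B W M : ℕ)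
  (κ0 : ℕ) (T : ℕ → Finset ℕ) (𝔮 : ℕ → Ideal (𝓞 F)) (r P : ℕ → (𝓞 F)[X]),
  IsGen 1 f θ → SqF 1 f → Blk W M κf T 𝔮 r P → GF B W M κ0 κf f₁ T 𝔮 P f →
  ∀ 𝔔 : ℕ → HeightOneSpectrum (𝓞 L), BigQ θ (sup T M) 𝔮 𝔔 →
  ∀ i < M, ∀ α : L, α ≠ 0 → IsSquare (Algebra.norm F α) →
    (∀ 𝔓 : HeightOneSpectrum (𝓞 L), (∀ q ∈ sup T i, 𝔓 ≠ 𝔔 q) → Ev 𝔓 α) → ¬ IsSquare α →
    ¬ Dev (sup T i).card (T i) ((T i).filter fun q => Sq1 (𝔔 q) α)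

/-- (LWY) The lower bounds: `S_LOW → S_NPQ → S_SQ2 → S_SQR → S_LWY` (squares are classes of points,
with the empty list). -/
def S_LWY : Prop := ∀ (F : Type) [Field F] [NumberField F], ∃ c0 : ℕ,
  ∀ (L : Type) [Field L] [NumberField L] [Algebra F L] (f : (𝓞 F)[X]) (θ : L) (W : ℕ)
  (S : Finset ℕ) (𝔮 : ℕ → Ideal (𝓞 F)) (r P : ℕ → (𝓞 F)[X]),
  IsGen 1 f θ → SqF 1 f → GoodS 1 W S 𝔮 r P → (∀ q ∈ S, Cg (𝔮 q) f (X * r q)) →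
  ∀ 𝔔 : ℕ → HeightOneSpectrum (𝓞 L), BigQ θ S 𝔮 𝔔 → ∀ Y ⊆ S,
  ∃ A : Finset L, 2 ^ Y.card ≤ c0 * A.card ∧ (∀ α ∈ A, Mg f θ Y 𝔔 α) ∧
    ∀ x ∈ A, ∀ y ∈ A, x ≠ y → ¬ IsSquare (x * y)

/-- (LAMJ) `S_CLIMB → S_REAL → S_WTS → S_LWY → S_REC → S_CLL → (S_EXQ, S_NS, ...) → S_LAMJ`: the choice of the
twist. `Λ` is the image of `Mg` under `psi`; it is a group (`Pool.Agent.N457.PQ.cls`, as in
`N771/PF/Core.lean`), totally singular by `S_REC`; `psi` is injective modulo squares on `Mg` by WTS for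
`i = 0` (all of `T 0` is `Dev`: `y = 0`); `S_REAL` for `V` = the elements of `Λ` ramified at most
in `sup T (i + 1)` (at most `4 ^ |sup T (i + 1)|` elements) and `U = T (i + 1)` gives the
hypothesis of CLIMB on functionals. -/
def S_LAMJ : Prop := ∀ (F : Type) [Field F] [NumberField F] (a : ℕ), ∃ (M κ0 K0 : ℕ)
  (κf : Finset ℕ → ℕ), 0 < M ∧
  ∀ (L : Type) [Field L] [NumberField L] [Algebra F L] (f f₁ : (𝓞 F)[X]) (θ : L) (B W : ℕ)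
  (T : ℕ → Finset ℕ) (𝔮 : ℕ → Ideal (𝓞 F)) (r P : ℕ → (𝓞 F)[X]), K0 ≤ W →
  IsGen 1 f θ → SqF 1 f → GoodF 1 W f₁ → Blk W M κf T 𝔮 r P → (∀ i < M, (T i).Nonempty) →
  GF B W M κ0 κf f₁ T 𝔮 P f → 1 ≤ B →
  ∀ 𝔔 : ℕ → HeightOneSpectrum (𝓞 L), BigQ θ (sup T M) 𝔮 𝔔 →
  ∃ J ⊆ sup T M, ∃ R : Finset L, R.card = 2 ^ a ∧
    (∀ α ∈ R, Mg f θ (sup T M) 𝔔 α ∧ InW J (psi θ (sup T M) 𝔔 α)) ∧
    (∀ x ∈ R, ∀ y ∈ R, x ≠ y → ¬ IsSquare (x * y)) ∧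
    ∀ α, Mg f θ (sup T M) 𝔔 α → InW J (psi θ (sup T M) 𝔔 α) → ∃ β ∈ R, IsSquare (α * β)

/-- (SELJ) The classes in `W_J` are the Selmer group of the twist by `Dp J`:
`S_LOC → S_CLL → S_GPX → S_SPX → S_CLW → S_TR2 → (S_EXQ, S_PIN, ...) → S_SELJ`. In one direction by
LOC (even valuations, `U0`) and TR2; in the other direction by GPX (primes `w` not dividing
`2 Dp J`), SPX (primes dividing `Dp J`), CLW, TR2 (primes over 2, real places). Translation between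
`h(Dθ)` and `(h.comp (C D * X))(θ)` as in `N170/PF/Tw.lean`. -/
def S_SELJ : Prop := ∀ (W : ℕ) (F L : Type) [Field F] [NumberField F] [Field L] [NumberField L]
  [Algebra F L] (f f₁ : (𝓞 F)[X]) (θ : L) (S J : Finset ℕ) (𝔮 : ℕ → Ideal (𝓞 F))
  (r P : ℕ → (𝓞 F)[X]), IsGen 1 f θ → SqF 1 f → GoodF 1 W f₁ → GoodS 1 W S 𝔮 r P →
  Cg (sp F W) f f₁ → (∀ q ∈ S, Cg (sp F q) f (P q)) → J ⊆ S →
  ∀ 𝔔 : ℕ → HeightOneSpectrum (𝓞 L), BigQ θ S 𝔮 𝔔 →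
  ∀ h : F[X], aeval ((Dp J : L) * θ) h ≠ 0 →
    (SelH (f.scaleRoots ((Dp J : ℕ) : 𝓞 F)) h ↔
      Mg f θ S 𝔔 (aeval ((Dp J : L) * θ) h) ∧
        InW J (psi θ S 𝔔 (aeval ((Dp J : L) * θ) h)))

/-- (COR) `S_LAMJ → S_SELJ → S_SQF → S_IRR → S_GEN → S_MIN → S_COR` (compare `N170/PF/Tw.lean`). -/
def S_COR : Prop := ∀ (F : Type) [Field F] [NumberField F] (a : ℕ), ∃ (M κ0 K0 : ℕ)
  (κf : Finset ℕ → ℕ), 0 < M ∧
  ∀ (f f₁ : (𝓞 F)[X]) (B W : ℕ) (T : ℕ → Finset ℕ) (𝔮 : ℕ → Ideal (𝓞 F)) (r P : ℕ → (𝓞 F)[X]),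
  K0 ≤ W → GoodF 1 W f₁ → Blk W M κf T 𝔮 r P → (∀ i < M, (T i).Nonempty) →
  GF B W M κ0 κf f₁ T 𝔮 P f → 1 ≤ B →
  ∃ J ⊆ sup T M, Irreducible (fF (f.scaleRoots ((Dp J : ℕ) : 𝓞 F))) ∧
    SelN (f.scaleRoots ((Dp J : ℕ) : 𝓞 F)) (2 ^ a) ∧ Min 1 (f.scaleRoots ((Dp J : ℕ) : 𝓞 F))

/-- (MNS) `S_PTS → S_CNT → S_COR → S_MNS` (compare `N99/PF/Main.lean`: `card_fib`, `ht_card`,
`ht_scale`, `scale_inj`). -/
def S_MNS : Prop := ∀ (F : Type) [Field F] [NumberField F] (a : ℕ), ∃ c : ℝ, 0 < c ∧ ∃ B₀ : ℕ,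
  ∀ B ≥ B₀, {f : (𝓞 F)[X] | Ht 1 B f}.Finite ∧ c * ({f : (𝓞 F)[X] | Ht 1 B f}.ncard : ℝ) ≤
    ({f : (𝓞 F)[X] | Ht 1 B f ∧ Irreducible (fF f) ∧ SelN f (2 ^ a) ∧ Min 1 f}.ncard : ℝ)

/-- (FNS) `S_PTS → S_MNS → S_FNS` (compare `N61/PF/Fin1.lean`). -/
def S_FNS : Prop := ∀ (F : Type) [Field F] [NumberField F] (a : ℕ), ∃ c : ℝ, 0 < c ∧ ∃ Y₀ : ℝ,
  ∀ Y : ℝ, {p : 𝓞 F × 𝓞 F | Crv Y p}.Finite ∧ (Y₀ ≤ Y → 0 < {p : 𝓞 F × 𝓞 F | Crv Y p}.ncard ∧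
    c * ({p : 𝓞 F × 𝓞 F | Crv Y p}.ncard : ℝ) ≤
      ({p : 𝓞 F × 𝓞 F | Crv Y p ∧ Irreducible (fF (X ^ 3 + C p.1 * X + C p.2 : (𝓞 F)[X])) ∧
        SelN (X ^ 3 + C p.1 * X + C p.2 : (𝓞 F)[X]) (2 ^ a)}.ncard : ℝ))

/-- (RKN) The rank and the 2-Selmer group: `E(F) / 2 E(F)` has at least `2 ^ rank` elements, every coset
contains a point not of order 1 or 2, and `x - Θ` gives different Selmer classes (`S_PAIR` in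
`L0h50/NR/Stm.lean`; the cosets as in `L0h71/SL/Grpn.lean` or the proof of `S_COS`). -/
def S_RKN : Prop := ∀ (F : Type) [Field F] [NumberField F] (A B : 𝓞 F) (N : ℕ),
  4 * A ^ 3 + 27 * B ^ 2 ≠ 0 → Irreducible (fF (X ^ 3 + C A * X + C B : (𝓞 F)[X])) →
  SelN (X ^ 3 + C A * X + C B : (𝓞 F)[X]) N →
  2 ^ Module.finrank ℤ (⟨0, 0, 0, (A : F), (B : F)⟩ : WeierstrassCurve F).toAffine.Point ≤ N

end Pool.Agent.L0h94.SP
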